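import Pool.Agent.H308R3.DM.Stmts

set_option autoImplicit false

/-! Task DM-ExSum: `ex` is the average over paths. -/

namespace Pool.Agent.H308R3.DM

open Finset Filter Topology
open scoped Classical BigOperators ENNReal

noncomputable section

namespace ExS

theorem pos_zero {n : ℕ} (x : Pt) (ω : Fin n → Stp) : pos x ω 0 = x := by
  simp [pos]

theorem pos_cons {n : ℕ} (x : Pt) (s : Stp) (ω : Fin n → Stp) (k : ℕ) :
    pos x (Fin.cons s ω : Fin (n + 1) → Stp) (k + 1) = pos (x + dv s) ω k := by
  unfold pos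
  rw [Fin.sum_univ_succ]
  simp only [Fin.cons_zero, Fin.cons_succ, Fin.val_zero, Fin.val_succ, Nat.succ_pos', if_true,
    Nat.add_lt_add_iff_right]
  rw [add_assoc]

theorem rng_cons {n : ℕ} (x : Pt) (s : Stp) (ω : Fin n → Stp) :
    rng x (Fin.cons s ω : Fin (n + 1) → Stp) = insert x (rng (x + dv s) ω) := by
  ext y
  simp only [rng, mem_image, mem_range, mem_insert]
  constructor
  · rintro ⟨k, hk, rfl⟩
    cases k with
    | zero => exact Or.inl (pos_zero _ _)
    | succ k => exact Or.inr ⟨k, by omega, (pos_cons x s ω k).symm⟩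
  · rintro (rfl | ⟨k, hk, rfl⟩)
    · exact ⟨0, by omega, pos_zero _ _⟩
    · exact ⟨k + 1, by omega, pos_cons x s ω k⟩

theorem start_mem {n : ℕ} (x : Pt) (ω : Fin n → Stp) : x ∈ rng x ω :=
  mem_image.2 ⟨0, mem_range.2 (by omega), pos_zero _ _⟩

theorem gen (F : Pt → Finset Pt → ℝ) : ∀ (n : ℕ) (x : Pt) (S : Finset Pt), x ∈ S →
    ex n x S F = (∑ ω : Fin n → Stp, F (pos x ω n) (S ∪ rng x ω)) / 4 ^ n := by
  intro n
  induction n with
  | zero =>
    intro x S hx
    have h1 : ∀ ω : Fin 0 → Stp, F (pos x ω 0) (S ∪ rng x ω) = F x S := by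
      intro ω
      have h2 : rng x ω = {x} := by
        simp [rng, pos_zero]
      rw [pos_zero, h2, union_eq_left.2 (singleton_subset_iff.2 hx)]
    show F x S = _
    rw [Finset.sum_congr rfl fun ω _ => h1 ω]
    simp
  | succ n ih =>
    intro x S hx
    have h1 : ∀ s : Stp, ex n (x + dv s) (insert (x + dv s) S) F =
        (∑ ω : Fin n → Stp, F (pos x (Fin.cons s ω : Fin (n + 1) → Stp) (n + 1))
          (S ∪ rng x (Fin.cons s ω : Fin (n + 1) → Stp))) / 4 ^ n := by
      intro s
      rw [ih _ _ (mem_insert_self _ _)]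
      congr 1
      refine Finset.sum_congr rfl fun ω _ => ?_
      rw [pos_cons, rng_cons]
      congr 1
      have hm := start_mem (x + dv s) ω
      ext y
      simp only [mem_union, mem_insert]
      constructor
      · rintro ((rfl | h) | h)
        · exact Or.inr (Or.inr hm)
        · exact Or.inl h
        · exact Or.inr (Or.inr h)
      · rintro (h | rfl | h)
        · exact Or.inl (Or.inr h)
        · exact Or.inl (Or.inr hx)
        · exact Or.inr h
    show (∑ s : Stp, ex n (x + dv s) (insert (x + dv s) S) F) / 4 = _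
    rw [Finset.sum_congr rfl fun s _ => h1 s, ← Finset.sum_div]
    have h2 : ∑ ω : Fin (n + 1) → Stp, F (pos x ω (n + 1)) (S ∪ rng x ω) =
        ∑ s : Stp, ∑ ω : Fin n → Stp, F (pos x (Fin.cons s ω : Fin (n + 1) → Stp) (n + 1))
          (S ∪ rng x (Fin.cons s ω : Fin (n + 1) → Stp)) := by
      rw [← Fintype.sum_prod_type']
      exact (Fintype.sum_equiv (Fin.consEquiv (fun _ => Stp)) _ _ fun p => rfl).symm
    rw [h2, pow_succ, div_div]

end ExS

theorem taskExSum : TaskExSum := by
  intro n x F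
  rw [ExS.gen F n x {x} (mem_singleton_self x)]
  congr 1
  refine Finset.sum_congr rfl fun ω _ => ?_
  rw [union_eq_right.2 (singleton_subset_iff.2 (ExS.start_mem x ω))]

end

end Pool.Agent.H308R3.DM
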